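import Pool.Agent.Helper2.HT.Fin

/-!
MP_846de0_nt: how often does an orbit of `f(n) = σ(n) − 1` reach a prime within two steps?

`Reach k n`: one of `n, f(n), …, f^k(n)` is prime; `P(n)` is the largest prime factor of `n` and
`cof n = n / P(n)`.

For every `A`, the number of `n ≤ x` such that `n` or `f(n)` is prime, or `f(f(n))` is prime and
`cof n · cof (f n) ≤ x^(1 − (log log x)^(-A))`, is at most `x (log log x)^C / log x`.

The proof: the upper bound sieve for two and three linear forms (whose values are the largest prime
factors of `n` and `f(n)` and the prime reached), Rankin's bound for smooth values of `n` and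
`f(n)`, Brun-Titchmarsh, and the mean value of `σ(m)/m` powers over the cofactors.
-/

set_option autoImplicit false

open Finset

namespace Pool.Agent.Results.MP_846de0_nt.TwoStepCount

open Pool.Agent.Helper2.HT

open Classical in
theorem result : ∀ A : ℕ, ∃ C X0 : ℕ, ∀ x : ℕ, X0 ≤ x →
    (((Icc 2 x).filter (fun n => Reach 1 n ∨ (Reach 2 n ∧
      (cof n : ℝ) * cof (f n) ≤ (x : ℝ) ^ (1 - 1 / Real.log (Real.log x) ^ A)))).card : ℝ) ≤
      x * Real.log (Real.log x) ^ C / Real.log x :=
  count_final

end Pool.Agent.Results.MP_846de0_nt.TwoStepCount
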