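import Pool.Agent.Helper2.HT.T2
import Pool.Agent.Helper2.HT.Fin

/-!
MP_846de0_nt: how often does an orbit of `f(n) = σ(n) − 1` reach a prime within two steps?

`Reach k n`: one of `n, f(n), …, f^k(n)` is prime.

Uniformly for `2 ≤ m ≤ exp √(log x)`, the number of primes `p ≤ x` for which the orbit of `m p`
reaches a prime within two steps is at most `x (log log x)^C / (log x)^2`.
-/

set_option autoImplicit false

open Finset

namespace Pool.Agent.Results.MP_846de0_nt.TwoStepFixed

open Pool.Agent.Helper2.HT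

open Classical in
theorem result : ∃ C X0 : ℕ, ∀ x : ℕ, X0 ≤ x →
    ∀ m : ℕ, 2 ≤ m → (m : ℝ) ≤ Real.exp √(Real.log x) →
      (((Icc 1 x).filter (fun p => p.Prime ∧ Reach 2 (m * p))).card : ℝ) ≤
        x * Real.log (Real.log x) ^ C / Real.log x ^ 2 := by
  obtain ⟨C, X0, h⟩ := t2
  refine ⟨C, X0, fun x hx m hm hmx => ?_⟩
  have h1 := h x hx m hm hmx
  have h2 : (Icc 1 x).filter (fun p => p.Prime ∧ Reach 2 (m * p)) =
      (Icc 1 x).filter (fun p => p.Prime ∧ ((f (m * p)).Prime ∨ (f (f (m * p))).Prime)) := by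
    refine Finset.filter_congr fun p _ => and_congr_right fun hp => ?_
    rw [reach2]
    have : ¬ (m * p).Prime := Nat.not_prime_mul (by omega) hp.one_lt.ne'
    tauto
  rw [h2]
  exact h1

end Pool.Agent.Results.MP_846de0_nt.TwoStepFixed
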