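import Pool.Agent.Helper2.HT.Fin

/-!
MP_846de0_nt: how often does an orbit of `f(n) = σ(n) − 1` reach a prime within two steps?

`Reach k n`: one of `n, f(n), …, f^k(n)` is prime; `P(n)` is the largest prime factor of `n` and
`cof n = n / P(n)`.

For every `ε > 0` and every small enough `κ > 0`, for large `x` at least `κ x / 2` of the integers
`n ≤ x` have `cof n ≤ x^κ`, and at most the proportion `ε` of those reach a prime within two steps.
(In particular the `n` with `n`, `f(n)`, `f(f(n))` all composite have positive lower density.)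
-/

set_option autoImplicit false

open Finset

namespace Pool.Agent.Results.MP_846de0_nt.TwoStepProportion

open Pool.Agent.Helper2.HT

open Classical in
theorem result : ∀ ε : ℝ, 0 < ε → ∃ κ0 : ℝ, 0 < κ0 ∧ ∀ κ : ℝ, 0 < κ → κ ≤ κ0 →
    ∃ X0 : ℕ, ∀ x : ℕ, X0 ≤ x →
      κ / 2 * x ≤ (((Icc 2 x).filter (fun n => (cof n : ℝ) ≤ (x : ℝ) ^ κ)).card : ℝ) ∧
      (((Icc 2 x).filter (fun n => (cof n : ℝ) ≤ (x : ℝ) ^ κ ∧ Reach 2 n)).card : ℝ) ≤
        ε * ((Icc 2 x).filter (fun n => (cof n : ℝ) ≤ (x : ℝ) ^ κ)).card :=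
  prop_final

end Pool.Agent.Results.MP_846de0_nt.TwoStepProportion
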